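import Pool.Agent.Q187.PS.Stm

/-!
# Project PS, job LOWA: the test field
-/

set_option autoImplicit false
set_option linter.unusedSectionVars false

open MeasureTheory Set Filter Topology Metric
open scoped RealInnerProductSpace ENNReal NNReal ContDiff

namespace Q49.PS

open Q187.PS

lemma th_smooth : ContDiff ℝ 1 th := by
  unfold th
  exact Real.smoothTransition.contDiff.comp ((contDiff_id.sub contDiff_const).div_const _)

lemma th_nonneg (s : ℝ) : 0 ≤ th s := Real.smoothTransition.nonneg _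

lemma th_le_one (s : ℝ) : th s ≤ 1 := Real.smoothTransition.le_one _

lemma th_zero {s : ℝ} (hs : s ≤ 1) : th s = 0 :=
  Real.smoothTransition.zero_of_nonpos (by linarith)

lemma bb_smooth (r : ℝ) : ContDiff ℝ 1 (bb r) := by
  rw [contDiff_iff_contDiffAt]
  intro s
  rcases lt_or_ge s 1 with h | h
  · have e : bb r =ᶠ[𝓝 s] fun _ => (0 : ℝ) := by
      filter_upwards [eventually_lt_nhds h] with t ht
      unfold bb
      rw [th_zero ht.le, zero_mul]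
    exact contDiffAt_const.congr_of_eventuallyEq e
  · have hs : s ≠ 0 := by linarith
    have h1 : √s ≠ 0 := by
      rw [Real.sqrt_ne_zero']
      linarith
    unfold bb
    refine th_smooth.contDiffAt.mul (ContDiffAt.sub ?_ contDiffAt_const)
    exact contDiffAt_const.div (Real.contDiffAt_sqrt hs) h1

section general

variable {X E F : Type*} [NormedAddCommGroup X] [NormedSpace ℝ X] [FiniteDimensional ℝ X]
  [NormedAddCommGroup E] [InnerProductSpace ℝ E] [FiniteDimensional ℝ E]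
  [NormedAddCommGroup F] [InnerProductSpace ℝ F] [FiniteDimensional ℝ F]
  (p1 : X →L[ℝ] E) (p2 : X →L[ℝ] F) (i1 : E →L[ℝ] X) (i2 : F →L[ℝ] X)

/-- The coefficient of the first part. -/
noncomputable def ca (r : ℝ) (χ : E → ℝ) (x : X) : ℝ := -(th (‖p2 x‖ ^ 2) / r) * χ (p1 x)

/-- The coefficient of the second part. -/
noncomputable def cb (r : ℝ) (χ : E → ℝ) (x : X) : ℝ := bb r (‖p2 x‖ ^ 2) * χ (p1 x)

/-- The field. -/
noncomputable def Psi (r : ℝ) (χ : E → ℝ) (x : X) : X :=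
  (1 / r) • x + (i1 (ca p1 p2 r χ x • p1 x) + i2 (cb p1 p2 r χ x • p2 x))

lemma sq_smooth : ContDiff ℝ 1 fun x : X => ‖p2 x‖ ^ 2 :=
  p2.contDiff.norm_sq ℝ

lemma ca_smooth (r : ℝ) {χ : E → ℝ} (hχ : ContDiff ℝ 1 χ) :
    ContDiff ℝ 1 (ca p1 p2 r χ) := by
  unfold ca
  exact ((th_smooth.comp (sq_smooth p2)).div_const r).neg.mul (hχ.comp p1.contDiff)

lemma cb_smooth (r : ℝ) {χ : E → ℝ} (hχ : ContDiff ℝ 1 χ) :
    ContDiff ℝ 1 (cb p1 p2 r χ) := by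
  unfold cb
  exact ((bb_smooth r).comp (sq_smooth p2)).mul (hχ.comp p1.contDiff)

lemma Psi_smooth (r : ℝ) {χ : E → ℝ} (hχ : ContDiff ℝ 1 χ) :
    ContDiff ℝ 1 (Psi p1 p2 i1 i2 r χ) := by
  unfold Psi
  refine ContDiff.add (contDiff_id.const_smul _) (ContDiff.add ?_ ?_)
  · exact i1.contDiff.comp ((ca_smooth p1 p2 r hχ).smul p1.contDiff)
  · exact i2.contDiff.comp ((cb_smooth p1 p2 r hχ).smul p2.contDiff)

/-- A product of a function of the second and one of the first variable. -/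
lemma coef_deriv {f : ℝ → ℝ} (hf : ContDiff ℝ 1 f) {χ : E → ℝ} (hχ : ContDiff ℝ 1 χ) (x h : X) :
    fderiv ℝ (fun y : X => f (‖p2 y‖ ^ 2) * χ (p1 y)) x h =
      f (‖p2 x‖ ^ 2) * fderiv ℝ χ (p1 x) (p1 h) +
        χ (p1 x) * (deriv f (‖p2 x‖ ^ 2) * (2 * ⟪p2 x, p2 h⟫)) := by
  have h1 : HasFDerivAt (fun y : X => χ (p1 y)) ((fderiv ℝ χ (p1 x)).comp p1) x :=
    ((hχ.differentiable one_ne_zero).differentiableAt.hasFDerivAt).comp x p1.hasFDerivAt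
  have h2 : HasFDerivAt (fun y : X => ‖p2 y‖ ^ 2)
      (2 • (innerSL ℝ (p2 x)).comp p2) x := p2.hasFDerivAt.norm_sq
  have h3 : HasFDerivAt (fun y : X => f (‖p2 y‖ ^ 2))
      (deriv f (‖p2 x‖ ^ 2) • (2 • (innerSL ℝ (p2 x)).comp p2)) x :=
    ((hf.differentiable one_ne_zero).differentiableAt.hasDerivAt).comp_hasFDerivAt x h2
  rw [(h3.fun_mul h1).fderiv]
  simp only [ContinuousLinearMap.add_apply, ContinuousLinearMap.smul_apply,
    ContinuousLinearMap.comp_apply, smul_eq_mul, nsmul_eq_mul, innerSL_apply_apply]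
  push_cast
  ring

variable (h11 : ∀ v, p1 (i1 v) = v) (h21 : ∀ v, p2 (i1 v) = 0)
  (h12 : ∀ w, p1 (i2 w) = 0) (h22 : ∀ w, p2 (i2 w) = w)

include h11 h21 in
lemma ca_deriv (r : ℝ) {χ : E → ℝ} (hχ : ContDiff ℝ 1 χ) (x : X) :
    fderiv ℝ (ca p1 p2 r χ) x (i1 (p1 x)) =
      -(th (‖p2 x‖ ^ 2) / r) * fderiv ℝ χ (p1 x) (p1 x) := by
  have h := coef_deriv p1 p2 (f := fun s => -(th s / r)) (th_smooth.div_const r).neg hχ x
    (i1 (p1 x))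
  rw [h11, h21, inner_zero_right] at h
  have e : (ca p1 p2 r χ) = fun y : X => -(th (‖p2 y‖ ^ 2) / r) * χ (p1 y) := rfl
  rw [e, h]
  ring

include h12 h22 in
lemma cb_deriv (r : ℝ) {χ : E → ℝ} (hχ : ContDiff ℝ 1 χ) (x : X) :
    fderiv ℝ (cb p1 p2 r χ) x (i2 (p2 x)) =
      χ (p1 x) * (2 * ‖p2 x‖ ^ 2 * deriv (bb r) (‖p2 x‖ ^ 2)) := by
  have h := coef_deriv p1 p2 (f := bb r) (bb_smooth r) hχ x (i2 (p2 x))
  rw [h12, h22, map_zero, real_inner_self_eq_norm_sq] at h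
  have e : (cb p1 p2 r χ) = fun y : X => bb r (‖p2 y‖ ^ 2) * χ (p1 y) := rfl
  rw [e, h]
  ring

include h11 h21 h12 h22 in
lemma trace_Psi (r : ℝ) {χ : E → ℝ} (hχ : ContDiff ℝ 1 χ) (x : X) :
    LinearMap.trace ℝ X (fderiv ℝ (Psi p1 p2 i1 i2 r χ) x : X →ₗ[ℝ] X) =
      (1 / r) * Module.finrank ℝ X +
      ((ca p1 p2 r χ x * Module.finrank ℝ E +
        -(th (‖p2 x‖ ^ 2) / r) * fderiv ℝ χ (p1 x) (p1 x)) +
      (cb p1 p2 r χ x * Module.finrank ℝ F +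
        χ (p1 x) * (2 * ‖p2 x‖ ^ 2 * deriv (bb r) (‖p2 x‖ ^ 2)))) := by
  have ha : HasFDerivAt (ca p1 p2 r χ) (fderiv ℝ (ca p1 p2 r χ) x) x :=
    ((ca_smooth p1 p2 r hχ).differentiable one_ne_zero).differentiableAt.hasFDerivAt
  have hb : HasFDerivAt (cb p1 p2 r χ) (fderiv ℝ (cb p1 p2 r χ) x) x :=
    ((cb_smooth p1 p2 r hχ).differentiable one_ne_zero).differentiableAt.hasFDerivAt
  have h1 : HasFDerivAt (fun y : X => i1 (ca p1 p2 r χ y • p1 y))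
      (i1.comp (ca p1 p2 r χ x • p1 + (fderiv ℝ (ca p1 p2 r χ) x).smulRight (p1 x))) x :=
    i1.hasFDerivAt.comp x (ha.fun_smul p1.hasFDerivAt)
  have h2 : HasFDerivAt (fun y : X => i2 (cb p1 p2 r χ y • p2 y))
      (i2.comp (cb p1 p2 r χ x • p2 + (fderiv ℝ (cb p1 p2 r χ) x).smulRight (p2 x))) x :=
    i2.hasFDerivAt.comp x (hb.fun_smul p2.hasFDerivAt)
  have h0 : HasFDerivAt (fun y : X => (1 / r) • y) ((1 / r) • ContinuousLinearMap.id ℝ X) x :=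
    (hasFDerivAt_id x).const_smul (1 / r)
  have h3 : fderiv ℝ (Psi p1 p2 i1 i2 r χ) x = (1 / r) • ContinuousLinearMap.id ℝ X +
      (i1.comp (ca p1 p2 r χ x • p1 + (fderiv ℝ (ca p1 p2 r χ) x).smulRight (p1 x)) +
       i2.comp (cb p1 p2 r χ x • p2 + (fderiv ℝ (cb p1 p2 r χ) x).smulRight (p2 x))) :=
    (h0.fun_add (h1.fun_add h2)).fderiv
  have h4 : (fderiv ℝ (Psi p1 p2 i1 i2 r χ) x : X →ₗ[ℝ] X) =
      (1 / r) • (LinearMap.id : X →ₗ[ℝ] X) +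
      ((ca p1 p2 r χ x • ((i1 : E →ₗ[ℝ] X) ∘ₗ (p1 : X →ₗ[ℝ] E)) +
        (fderiv ℝ (ca p1 p2 r χ) x : X →ₗ[ℝ] ℝ).smulRight (i1 (p1 x))) +
       (cb p1 p2 r χ x • ((i2 : F →ₗ[ℝ] X) ∘ₗ (p2 : X →ₗ[ℝ] F)) +
        (fderiv ℝ (cb p1 p2 r χ) x : X →ₗ[ℝ] ℝ).smulRight (i2 (p2 x)))) := by
    rw [h3]
    ext1 y
    simp
  have t1 : LinearMap.trace ℝ X ((i1 : E →ₗ[ℝ] X) ∘ₗ (p1 : X →ₗ[ℝ] E)) = Module.finrank ℝ E := by
    rw [LinearMap.trace_comp_comm']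
    have : (p1 : X →ₗ[ℝ] E) ∘ₗ (i1 : E →ₗ[ℝ] X) = LinearMap.id := LinearMap.ext h11
    rw [this, LinearMap.trace_id]
  have t2 : LinearMap.trace ℝ X ((i2 : F →ₗ[ℝ] X) ∘ₗ (p2 : X →ₗ[ℝ] F)) = Module.finrank ℝ F := by
    rw [LinearMap.trace_comp_comm']
    have : (p2 : X →ₗ[ℝ] F) ∘ₗ (i2 : F →ₗ[ℝ] X) = LinearMap.id := LinearMap.ext h22
    rw [this, LinearMap.trace_id]
  rw [h4]
  simp only [map_add, map_smul, smul_eq_mul, t1, t2, LinearMap.trace_id, LinearMap.trace_smulRight,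
    ContinuousLinearMap.coe_coe, ca_deriv p1 p2 i1 h11 h21 r hχ x,
    cb_deriv p1 p2 i2 h12 h22 r hχ x]

lemma Psi_eq (hi : ∀ x, i1 (p1 x) + i2 (p2 x) = x) (r : ℝ) (χ : E → ℝ) (x : X) :
    Psi p1 p2 i1 i2 r χ x = (1 - χ (p1 x) * th (‖p2 x‖ ^ 2)) • ((1 / r) • x) +
      χ (p1 x) • (i2 ((th (‖p2 x‖ ^ 2) * (1 / √(‖p2 x‖ ^ 2))) • p2 x)) := by
  have h : Psi p1 p2 i1 i2 r χ x = (1 / r) • (i1 (p1 x) + i2 (p2 x)) +
      (ca p1 p2 r χ x • i1 (p1 x) + cb p1 p2 r χ x • i2 (p2 x)) := by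
    rw [hi]
    unfold Psi
    rw [map_smul, map_smul]
  have h' : (1 / r) • x = (1 / r) • (i1 (p1 x) + i2 (p2 x)) := by rw [hi]
  rw [h, h', map_smul]
  unfold ca cb bb
  module

lemma Psi_le (hi : ∀ x, i1 (p1 x) + i2 (p2 x) = x) (hn : ∀ w, ‖i2 w‖ = ‖w‖)
    {r : ℝ} (hr : 0 < r) {χ : E → ℝ} (h0 : ∀ v, 0 ≤ χ v) (h1 : ∀ v, χ v ≤ 1) (x : X)
    (hx : ‖x‖ ≤ r) : ‖Psi p1 p2 i1 i2 r χ x‖ ≤ 1 := by
  rw [Psi_eq p1 p2 i1 i2 hi]
  have t0 := th_nonneg (‖p2 x‖ ^ 2)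
  have t1 := th_le_one (‖p2 x‖ ^ 2)
  have l0 : 0 ≤ χ (p1 x) * th (‖p2 x‖ ^ 2) := mul_nonneg (h0 _) t0
  have l1 : χ (p1 x) * th (‖p2 x‖ ^ 2) ≤ 1 := mul_le_one₀ (h1 _) t0 t1
  have a1 : ‖(1 - χ (p1 x) * th (‖p2 x‖ ^ 2)) • ((1 / r) • x)‖ ≤
      1 - χ (p1 x) * th (‖p2 x‖ ^ 2) := by
    rw [norm_smul, norm_smul, Real.norm_of_nonneg (by linarith), Real.norm_of_nonneg (by positivity)]
    have : 1 / r * ‖x‖ ≤ 1 := by
      rw [one_div, inv_mul_le_iff₀ hr]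
      linarith
    calc _ ≤ (1 - χ (p1 x) * th (‖p2 x‖ ^ 2)) * 1 :=
          mul_le_mul_of_nonneg_left this (by linarith)
      _ = _ := by ring
  have a2 : ‖χ (p1 x) • (i2 ((th (‖p2 x‖ ^ 2) * (1 / √(‖p2 x‖ ^ 2))) • p2 x))‖ ≤
      χ (p1 x) * th (‖p2 x‖ ^ 2) := by
    rw [norm_smul, hn, norm_smul, Real.norm_of_nonneg (h0 _), Real.sqrt_sq (norm_nonneg _),
      Real.norm_of_nonneg (by positivity)]
    refine mul_le_mul_of_nonneg_left ?_ (h0 _)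
    rcases eq_or_ne ‖p2 x‖ 0 with h | h
    · rw [h]
      simpa using th_nonneg _
    · rw [mul_assoc, one_div, inv_mul_cancel₀ h, mul_one]
  calc _ ≤ _ := norm_add_le _ _
    _ ≤ _ := add_le_add a1 a2
    _ = 1 := by ring

theorem lowgen (h11 : ∀ v, p1 (i1 v) = v) (h21 : ∀ v, p2 (i1 v) = 0)
    (h12 : ∀ w, p1 (i2 w) = 0) (h22 : ∀ w, p2 (i2 w) = w)
    (hi : ∀ x, i1 (p1 x) + i2 (p2 x) = x) (hn : ∀ w, ‖i2 w‖ = ‖w‖)
    [HasContDiffBump X] (χ : E → ℝ) (hχ : ContDiff ℝ 1 χ) (h0 : ∀ v, 0 ≤ χ v)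
    (h1 : ∀ v, χ v ≤ 1) (ρ r : ℝ) (hρ : 0 < ρ) (hr : ρ < r) :
    ∃ Φ : X → X, ContDiff ℝ 1 Φ ∧ HasCompactSupport Φ ∧
    (∀ x, ‖Φ x‖ ≤ 1) ∧ ∀ x ∈ closedBall (0 : X) ρ,
      LinearMap.trace ℝ X (fderiv ℝ Φ x : X →ₗ[ℝ] X) =
      (1 / r) * Module.finrank ℝ X +
      ((ca p1 p2 r χ x * Module.finrank ℝ E +
        -(th (‖p2 x‖ ^ 2) / r) * fderiv ℝ χ (p1 x) (p1 x)) +
      (cb p1 p2 r χ x * Module.finrank ℝ F +
        χ (p1 x) * (2 * ‖p2 x‖ ^ 2 * deriv (bb r) (‖p2 x‖ ^ 2)))) := by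
  have hr0 : 0 < r := hρ.trans hr
  let η : ContDiffBump (0 : X) := ⟨(ρ + r) / 2, r, by linarith, by linarith⟩
  have hη : ContDiff ℝ 1 (η : X → ℝ) := η.contDiff
  refine ⟨fun x => η x • Psi p1 p2 i1 i2 r χ x, hη.smul (Psi_smooth p1 p2 i1 i2 r hχ),
    η.hasCompactSupport.smul_right, ?_, ?_⟩
  · intro x
    rcases le_or_gt ‖x‖ r with h | h
    · rw [norm_smul, Real.norm_of_nonneg η.nonneg]
      calc η x * ‖Psi p1 p2 i1 i2 r χ x‖ ≤ 1 * 1 :=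
            mul_le_mul η.le_one (Psi_le p1 p2 i1 i2 hi hn hr0 h0 h1 x h) (norm_nonneg _) zero_le_one
        _ = 1 := one_mul 1
    · have : η x = 0 := by
        apply η.zero_of_le_dist
        rw [dist_zero_right]
        exact h.le
      simp [this]
  · intro x hx
    have e : (fun x => η x • Psi p1 p2 i1 i2 r χ x) =ᶠ[𝓝 x] Psi p1 p2 i1 i2 r χ := by
      have hx' : x ∈ ball (0 : X) ((ρ + r) / 2) := by
        rw [mem_ball]
        have := mem_closedBall.1 hx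
        linarith
      filter_upwards [isOpen_ball.mem_nhds hx'] with y hy
      have : η y = 1 := η.one_of_mem_closedBall (ball_subset_closedBall hy)
      rw [this, one_smul]
    rw [e.fderiv_eq]
    exact trace_Psi p1 p2 i1 i2 h11 h21 h12 h22 r hχ x

end general

variable (m : ℕ)

/-- The equivalence. -/
noncomputable def eqv : XX m ≃L[ℝ] (V2 × EuclideanSpace ℝ (Fin m)) :=
  WithLp.prodContinuousLinearEquiv 2 ℝ V2 (EuclideanSpace ℝ (Fin m))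

lemma i_add (x : XX m) : (eqv m).symm (x.fst, 0) + (eqv m).symm (0, x.snd) = x := by
  rw [← map_add]
  apply (eqv m).injective
  rw [ContinuousLinearEquiv.apply_symm_apply, Prod.mk_add_mk, add_zero, zero_add]
  rfl

lemma norm_i2 (w : EuclideanSpace ℝ (Fin m)) : ‖(eqv m).symm (0, w)‖ = ‖w‖ := by
  rw [WithLp.prod_norm_eq_of_L2]
  have h1 : ((eqv m).symm (0, w)).fst = 0 := rfl
  have h2 : ((eqv m).symm (0, w)).snd = w := rfl
  rw [h1, h2]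
  simp

theorem lowA : S_LowA := by
  intro m χ hχ h0 h1 ρ r hρ hr
  obtain ⟨Φ, a1, a2, a3, a4⟩ := lowgen
    ((ContinuousLinearMap.fst ℝ V2 (EuclideanSpace ℝ (Fin m))).comp
      (eqv m : XX m →L[ℝ] (V2 × EuclideanSpace ℝ (Fin m))))
    ((ContinuousLinearMap.snd ℝ V2 (EuclideanSpace ℝ (Fin m))).comp
      (eqv m : XX m →L[ℝ] (V2 × EuclideanSpace ℝ (Fin m))))
    (((eqv m).symm : (V2 × EuclideanSpace ℝ (Fin m)) →L[ℝ] XX m).comp
      (ContinuousLinearMap.inl ℝ V2 (EuclideanSpace ℝ (Fin m))))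
    (((eqv m).symm : (V2 × EuclideanSpace ℝ (Fin m)) →L[ℝ] XX m).comp
      (ContinuousLinearMap.inr ℝ V2 (EuclideanSpace ℝ (Fin m))))
    (fun v => rfl) (fun v => rfl) (fun w => rfl) (fun w => rfl) (i_add m) (norm_i2 m)
    χ hχ h0 h1 ρ r hρ hr
  refine ⟨Φ, a1, a2, a3, ?_⟩
  intro x hx
  rw [a4 x hx]
  have hd : Module.finrank ℝ (XX m) = m + 2 := by
    rw [(eqv m).toLinearEquiv.finrank_eq,
      Module.finrank_prod, finrank_euclideanSpace_fin, finrank_euclideanSpace_fin]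
    ring
  rw [hd, finrank_euclideanSpace_fin, finrank_euclideanSpace_fin]
  have e1 : ((ContinuousLinearMap.fst ℝ V2 (EuclideanSpace ℝ (Fin m))).comp
      (eqv m : XX m →L[ℝ] (V2 × EuclideanSpace ℝ (Fin m)))) x = x.fst := rfl
  have e2 : ((ContinuousLinearMap.snd ℝ V2 (EuclideanSpace ℝ (Fin m))).comp
      (eqv m : XX m →L[ℝ] (V2 × EuclideanSpace ℝ (Fin m)))) x = x.snd := rfl
  unfold dv ca cb
  rw [e1, e2]
  push_cast
  ring

end Q49.PS
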