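import Pool.Agent.Q187.PS.Stm

/-!
# Project PS, job STRT: the starting function
-/

set_option autoImplicit false
set_option linter.unusedSectionVars false

open MeasureTheory Set Filter Topology Metric
open scoped RealInnerProductSpace ENNReal NNReal ContDiff

namespace Q49.PS

open Q187.PS

section

variable {ν : Measure ℝ} {β : ℝ → ℝ}

lemma beta_cont (hs : Spread ν β) : Continuous β := by
  have : LipschitzWith 1 β := by
    refine LipschitzWith.of_dist_le_mul fun x y => ?_
    rw [Real.dist_eq, Real.dist_eq, NNReal.coe_one, one_mul]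
    exact hs.lip x y
  exact this.continuous

lemma beta_surj (hs : Spread ν β) : Function.Surjective β := by
  refine (beta_cont hs).surjective ?_ ?_
  · refine tendsto_atTop_mono (fun x => ?_) (tendsto_atTop_add_const_right atTop (-1) tendsto_id)
    have := (abs_le.1 (hs.near x)).1
    simp only [id]
    linarith
  · refine tendsto_atBot_mono (fun x => ?_) (tendsto_atBot_add_const_right atBot 1 tendsto_id)
    have := (abs_le.1 (hs.near x)).2
    simp only [id]
    linarith

lemma coord_le (v : V2) (i : Fin 2) : |v i| ≤ ‖v‖ := by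
  have := EuclideanSpace.norm_eq v
  rw [this]
  apply Real.le_sqrt_of_sq_le
  rw [Fin.sum_univ_two]
  fin_cases i
  · simp only [Real.norm_eq_abs, sq_abs, Fin.zero_eta]
    nlinarith [sq_nonneg (v 1)]
  · simp only [Real.norm_eq_abs, sq_abs, Fin.mk_one]
    nlinarith [sq_nonneg (v 0)]

lemma norm_le_coord (v : V2) : ‖v‖ ≤ |v 0| + |v 1| := by
  have := EuclideanSpace.norm_eq v
  rw [this]
  apply Real.sqrt_le_iff.2
  refine ⟨by positivity, ?_⟩
  rw [Fin.sum_univ_two]
  simp only [Real.norm_eq_abs]
  nlinarith [abs_nonneg (v 0), abs_nonneg (v 1), mul_nonneg (abs_nonneg (v 0)) (abs_nonneg (v 1))]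

lemma HH_diff (v v' : V2) :
    |HH β v' - HH β v| ≤ 2 * |β (v' 0) - β (v 0)| + |β (v' 1) - β (v 1)| := by
  unfold HH
  have h1 := abs_abs_sub_abs_le (β (v' 0)) (β (v 0))
  have h2 := abs_abs_sub_abs_le (β (v' 1)) (β (v 1))
  rw [abs_le] at h1 h2 ⊢
  constructor
  · linarith [h1.1, h2.1]
  · linarith [h1.2, h2.2]

lemma HH_lip (hs : Spread ν β) (v v' : V2) : |HH β v' - HH β v| ≤ 3 * ‖v' - v‖ := by
  refine (HH_diff v v').trans ?_
  have h1 := hs.lip (v' 0) (v 0)
  have h2 := hs.lip (v' 1) (v 1)
  have h3 := coord_le (v' - v) 0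
  have h4 := coord_le (v' - v) 1
  rw [PiLp.sub_apply] at h3 h4
  linarith

lemma HH_cont (hs : Spread ν β) : Continuous (HH β) := by
  have : LipschitzWith 3 (HH β) := by
    refine LipschitzWith.of_dist_le_mul fun x y => ?_
    rw [Real.dist_eq, dist_eq_norm]
    exact HH_lip hs y x
  exact this.continuous

lemma HH_nonneg (v : V2) : 0 ≤ HH β v := by unfold HH; positivity

lemma HH_ge (hs : Spread ν β) (v : V2) : ‖v‖ - 2 ≤ HH β v := by
  have h1 := hs.near (v 0)
  have h2 := hs.near (v 1)
  have h3 := norm_le_coord v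
  have h4 : |v 0| ≤ |β (v 0)| + |β (v 0) - v 0| := by
    have := abs_sub_abs_le_abs_sub (v 0) (β (v 0))
    rw [abs_sub_comm] at this
    linarith
  have h5 : |v 1| ≤ |β (v 1)| + |β (v 1) - v 1| := by
    have := abs_sub_abs_le_abs_sub (v 1) (β (v 1))
    rw [abs_sub_comm] at this
    linarith
  unfold HH
  have h6 := abs_nonneg (β (v 0))
  linarith

lemma sub_fin (hs : Spread ν β) (t : ℝ) : volume {v : V2 | HH β v ≤ t} < ⊤ := by
  refine lt_of_le_of_lt (measure_mono (t := closedBall 0 (t + 2)) ?_) measure_closedBall_lt_top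
  intro v hv
  rw [mem_closedBall_zero_iff]
  have : HH β v ≤ t := hv
  linarith [HH_ge hs v]

lemma sub_meas (hs : Spread ν β) (t : ℝ) : MeasurableSet {v : V2 | HH β v ≤ t} :=
  (isClosed_le (HH_cont hs) continuous_const).measurableSet

lemma ofReal_area (hs : Spread ν β) (t : ℝ) :
    ENNReal.ofReal (area β t) = volume {v : V2 | HH β v ≤ t} :=
  ENNReal.ofReal_toReal (sub_fin hs t).ne

lemma area_split (hs : Spread ν β) {s t : ℝ} (hst : s ≤ t) :
    area β t = area β s + (volume {v : V2 | s < HH β v ∧ HH β v ≤ t}).toReal := by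
  have e : {v : V2 | HH β v ≤ t} = {v : V2 | HH β v ≤ s} ∪ {v : V2 | s < HH β v ∧ HH β v ≤ t} := by
    ext v
    simp only [mem_setOf_eq, mem_union]
    constructor
    · intro h
      rcases le_or_gt (HH β v) s with h' | h'
      · exact Or.inl h'
      · exact Or.inr ⟨h', h⟩
    · rintro (h | h)
      · exact h.trans hst
      · exact h.2
  have d : Disjoint {v : V2 | HH β v ≤ s} {v : V2 | s < HH β v ∧ HH β v ≤ t} := by
    rw [Set.disjoint_left]
    intro v h1 h2
    exact absurd h2.1 (not_lt.2 h1)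
  have m : MeasurableSet {v : V2 | s < HH β v ∧ HH β v ≤ t} :=
    (isOpen_lt continuous_const (HH_cont hs)).measurableSet.inter (sub_meas hs t)
  unfold area
  rw [e, measure_union d m, ENNReal.toReal_add (sub_fin hs s).ne]
  exact (lt_of_le_of_lt (measure_mono fun v hv => hv.2) (sub_fin hs t)).ne

lemma area_mono (hs : Spread ν β) {s t : ℝ} (hst : s ≤ t) : area β s ≤ area β t := by
  rw [area_split hs hst]
  exact le_add_of_nonneg_right ENNReal.toReal_nonneg

lemma area_nonneg (t : ℝ) : 0 ≤ area β t := ENNReal.toReal_nonneg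

lemma area_lip (ha : ∀ s t : ℝ, 0 ≤ s → s ≤ t →
    volume {v : V2 | s < HH β v ∧ HH β v ≤ t} ≤ ENNReal.ofReal ((2 * t + 4) * (t - s)))
    (hs : Spread ν β) {s t : ℝ} (h0 : 0 ≤ s) (hst : s ≤ t) :
    area β t - area β s ≤ (2 * t + 4) * (t - s) := by
  rw [area_split hs hst, add_sub_cancel_left]
  refine ENNReal.toReal_le_of_le_ofReal ?_ (ha s t h0 hst)
  exact mul_nonneg (by linarith) (by linarith)

lemma area_strict (hs : Spread ν β) {s t : ℝ} (h0 : 0 ≤ s) (hst : s < t) :
    area β s < area β t := by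
  rw [area_split hs hst.le]
  refine lt_add_of_pos_right _ ?_
  apply ENNReal.toReal_pos
  · have ho : IsOpen {v : V2 | s < HH β v ∧ HH β v < t} :=
      (isOpen_lt continuous_const (HH_cont hs)).inter (isOpen_lt (HH_cont hs) continuous_const)
    have hne : {v : V2 | s < HH β v ∧ HH β v < t}.Nonempty := by
      obtain ⟨a, ha⟩ := beta_surj hs ((s + t) / 2)
      obtain ⟨b, hb⟩ := beta_surj hs 0
      refine ⟨!₂[b, a], ?_⟩
      have : HH β !₂[b, a] = (s + t) / 2 := by
        unfold HH
        have e0 : (!₂[b, a] : V2) 0 = b := rfl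
        have e1 : (!₂[b, a] : V2) 1 = a := rfl
        rw [e0, e1, ha, hb, abs_zero, mul_zero, zero_add, abs_of_nonneg (by linarith)]
      constructor
      · rw [this]; linarith
      · rw [this]; linarith
    have := ho.measure_pos volume hne
    have hsub : {v : V2 | s < HH β v ∧ HH β v < t} ⊆ {v : V2 | s < HH β v ∧ HH β v ≤ t} :=
      fun v hv => ⟨hv.1, hv.2.le⟩
    exact (lt_of_lt_of_le this (measure_mono hsub)).ne'
  · exact (lt_of_le_of_lt (measure_mono fun v hv => hv.2) (sub_fin hs t)).ne

/-- The area between `0` and `16` is Lipschitz. -/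
lemma area_lip' (ha : ∀ s t : ℝ, 0 ≤ s → s ≤ t →
    volume {v : V2 | s < HH β v ∧ HH β v ≤ t} ≤ ENNReal.ofReal ((2 * t + 4) * (t - s)))
    (hs : Spread ν β) {s t : ℝ} (h0 : 0 ≤ s) (hs16 : s ≤ 16) (h1 : 0 ≤ t) (ht16 : t ≤ 16) :
    |area β t - area β s| ≤ 36 * |t - s| := by
  have key : ∀ s t : ℝ, 0 ≤ s → s ≤ t → t ≤ 16 → |area β t - area β s| ≤ 36 * |t - s| := by
    intro s t h0 hst h16
    rw [abs_of_nonneg (sub_nonneg.2 (area_mono hs hst)), abs_of_nonneg (sub_nonneg.2 hst)]
    refine (area_lip ha hs h0 hst).trans ?_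
    exact mul_le_mul_of_nonneg_right (by linarith) (by linarith)
  rcases le_total s t with h | h
  · exact key s t h0 h ht16
  · rw [abs_sub_comm, abs_sub_comm t s]
    exact key t s h1 h hs16

lemma min_diff (a b c : ℝ) : |min a c - min b c| ≤ |a - b| := by
  refine (abs_min_sub_min_le_max a c b c).trans ?_
  simp

lemma start_diff (ha : ∀ s t : ℝ, 0 ≤ s → s ≤ t →
    volume {v : V2 | s < HH β v ∧ HH β v ≤ t} ≤ ENNReal.ofReal ((2 * t + 4) * (t - s)))
    (hs : Spread ν β) (v v' : V2) :
    |start β v' - start β v| ≤ 12 * |HH β v' - HH β v| := by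
  unfold start
  refine (abs_max_sub_max_le_max _ _ _ _).trans ?_
  rw [sub_self, abs_zero, max_eq_right (abs_nonneg _)]
  have e : 18 - area β (min (HH β v') 16) / Real.pi - (18 - area β (min (HH β v) 16) / Real.pi) =
      -((area β (min (HH β v') 16) - area β (min (HH β v) 16)) / Real.pi) := by ring
  rw [e, abs_neg, abs_div, abs_of_pos Real.pi_pos, div_le_iff₀ Real.pi_pos]
  have h1 := area_lip' ha hs (s := min (HH β v) 16) (t := min (HH β v') 16)
    (le_min (HH_nonneg _) (by norm_num)) (min_le_right _ _)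
    (le_min (HH_nonneg _) (by norm_num)) (min_le_right _ _)
  have h2 := min_diff (HH β v') (HH β v) 16
  have h3 := Real.pi_gt_three
  have h4 := abs_nonneg (HH β v' - HH β v)
  calc _ ≤ 36 * |min (HH β v') 16 - min (HH β v) 16| := h1
    _ ≤ 36 * |HH β v' - HH β v| := by linarith
    _ ≤ 12 * |HH β v' - HH β v| * Real.pi := by nlinarith

/-- The level sets. -/
lemma start_lev (ha : ∀ s t : ℝ, 0 ≤ s → s ≤ t →
    volume {v : V2 | s < HH β v ∧ HH β v ≤ t} ≤ ENNReal.ofReal ((2 * t + 4) * (t - s)))
    (h0 : volume {v : V2 | HH β v ≤ 0} = 0)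
    (h16 : ENNReal.ofReal (18 * Real.pi) ≤ volume {v : V2 | HH β v ≤ 16})
    (hs : Spread ν β) {s : ℝ} (hs0 : 0 < s) (hs18 : s ≤ 18) :
    volume (lev (start β) s) = ENNReal.ofReal (Real.pi * (18 - s)) := by
  have hpi := Real.pi_pos
  have a0 : area β 0 = 0 := by unfold area; rw [h0]; rfl
  have a16 : 18 * Real.pi ≤ area β 16 := by
    unfold area
    exact (ENNReal.ofReal_le_iff_le_toReal (sub_fin hs 16).ne).1 h16
  have hc : ContinuousOn (area β) (Icc 0 16) := by
    have : LipschitzOnWith 36 (area β) (Icc 0 16) := by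
      refine LipschitzOnWith.of_dist_le_mul fun x hx y hy => ?_
      rw [Real.dist_eq, Real.dist_eq]
      exact area_lip' ha hs hy.1 hy.2 hx.1 hx.2
    exact this.continuousOn
  have hτ : Real.pi * (18 - s) ∈ Icc (area β 0) (area β 16) := by
    rw [a0]
    constructor
    · exact mul_nonneg hpi.le (by linarith)
    · nlinarith
  obtain ⟨t, ht, hta⟩ := intermediate_value_Icc (by norm_num : (0 : ℝ) ≤ 16) hc hτ
  have ht16 : t < 16 := by
    rcases lt_or_eq_of_le ht.2 with h | h
    · exact h
    · rw [h] at hta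
      nlinarith
  have e : lev (start β) s = {v : V2 | HH β v ≤ t} := by
    ext v
    simp only [lev, start, mem_setOf_eq]
    rw [le_max_iff]
    constructor
    · rintro (h | h)
      · linarith
      · have h1 : area β (min (HH β v) 16) ≤ area β t := by
          rw [hta]
          have : area β (min (HH β v) 16) / Real.pi ≤ 18 - s := by linarith
          rw [div_le_iff₀ hpi] at this
          linarith
        have h2 : min (HH β v) 16 ≤ t := by
          by_contra h3
          exact absurd (area_strict hs ht.1 (not_le.1 h3)) (not_lt.2 h1)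
        rcases min_le_iff.1 h2 with h3 | h3
        · exact h3
        · linarith
    · intro h
      right
      have h1 : area β (min (HH β v) 16) ≤ area β t :=
        area_mono hs ((min_le_left _ _).trans h)
      rw [hta] at h1
      have : area β (min (HH β v) 16) / Real.pi ≤ 18 - s := by
        rw [div_le_iff₀ hpi]
        linarith
      linarith
  rw [e, ← ofReal_area hs, hta]

lemma vol_square {A : Set ℝ} (hA : MeasurableSet A) (h1 : volume A = 1) :
    volume {v : V2 | v 0 ∈ A ∧ v 1 ∈ A} = 1 := by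
  have h := (PiLp.volume_preserving_ofLp (Fin 2)).measure_preimage
    (s := Set.pi univ fun _ : Fin 2 => A) (MeasurableSet.univ_pi fun _ => hA).nullMeasurableSet
  rw [volume_pi_pi] at h
  simp only [h1, Finset.prod_const_one] at h
  rw [← h]
  congr 1
  ext v
  simp only [mem_setOf_eq, mem_preimage, Set.mem_pi, mem_univ, forall_true_left, Fin.forall_fin_two]

lemma start_deriv (ha : ∀ s t : ℝ, 0 ≤ s → s ≤ t →
    volume {v : V2 | s < HH β v ∧ HH β v ≤ t} ≤ ENNReal.ofReal ((2 * t + 4) * (t - s)))
    (hs : Spread ν β) {v : V2} (h0 : HasDerivAt β 0 (v 0)) (h1 : HasDerivAt β 0 (v 1)) :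
    HasFDerivAt (start β) (0 : V2 →L[ℝ] ℝ) v := by
  rw [hasFDerivAt_iff_isLittleO]
  have key : ∀ i : Fin 2, HasDerivAt β 0 (v i) →
      (fun v' : V2 => β (v' i) - β (v i)) =o[𝓝 v] fun v' => v' - v := by
    intro i hi
    have a1 := hasDerivAt_iff_isLittleO.1 hi
    simp only [smul_zero, sub_zero] at a1
    have a2 : Tendsto (fun v' : V2 => v' i) (𝓝 v) (𝓝 (v i)) :=
      (EuclideanSpace.proj i : V2 →L[ℝ] ℝ).continuous.tendsto v
    refine (a1.comp_tendsto a2).trans_isBigO ?_
    refine Asymptotics.IsBigO.of_bound 1 (Eventually.of_forall fun v' => ?_)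
    have := coord_le (v' - v) i
    rw [PiLp.sub_apply] at this
    simpa using this
  have h2 : (fun v' : V2 => start β v' - start β v - (0 : V2 →L[ℝ] ℝ) (v' - v)) =O[𝓝 v]
      fun v' => 2 * ‖β (v' 0) - β (v 0)‖ + ‖β (v' 1) - β (v 1)‖ := by
    refine Asymptotics.IsBigO.of_bound 12 (Eventually.of_forall fun v' => ?_)
    rw [zero_apply, sub_zero, Real.norm_eq_abs,
      Real.norm_of_nonneg (by positivity), Real.norm_eq_abs, Real.norm_eq_abs]
    refine (start_diff ha hs v v').trans ?_
    exact mul_le_mul_of_nonneg_left (HH_diff v v') (by norm_num)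
  refine h2.trans_isLittleO ?_
  exact ((key 0 h0).norm_left.const_mul_left 2).add (key 1 h1).norm_left

end

theorem strt (hz : S_Zero) (har : S_Area) : S_Strt := by
  intro ν β hd hs
  obtain ⟨ha, h0, h16⟩ := har ν β hd hs
  have hpi := Real.pi_pos
  have hpi3 := Real.pi_gt_three
  have a16 : 18 * Real.pi ≤ area β 16 := by
    unfold area
    exact (ENNReal.ofReal_le_iff_le_toReal (sub_fin hs 16).ne).1 h16
  have a0 : area β 0 = 0 := by unfold area; rw [h0]; rfl
  refine ⟨⟨?_, ?_, ?_, ?_⟩, ?_, ?_⟩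
  · exact fun v => le_max_left _ _
  · intro v
    refine max_le (by norm_num) ?_
    have : 0 ≤ area β (min (HH β v) 16) / Real.pi := div_nonneg (area_nonneg _) hpi.le
    linarith
  · intro x y
    have h1 := start_diff ha hs y x
    have h2 := HH_lip hs y x
    linarith
  · intro v hv
    have h1 : 16 ≤ HH β v := by
      have := HH_ge hs v
      linarith
    unfold start
    rw [min_eq_right h1]
    refine max_eq_left ?_
    have : 18 ≤ area β 16 / Real.pi := by
      rw [le_div_iff₀ hpi]
      exact a16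
    linarith
  · intro s hs'
    exact start_lev ha h0 h16 hs hs'.1 hs'.2
  · obtain ⟨A, hAm, hA1, hA⟩ := hz ν β hd hs
    have hK := vol_square hAm hA1
    have hsub : {v : V2 | v 0 ∈ A ∧ v 1 ∈ A} ⊆ crit (start β) (Icc 16 (18 - 1 / 8)) ∪
        lev (start β) (18 - 1 / 8) := by
      intro v hv
      obtain ⟨b0, d0⟩ := hA _ hv.1
      obtain ⟨b1, d1⟩ := hA _ hv.2
      have hf := start_deriv ha hs d0 d1
      rcases le_or_gt (18 - 1 / 8) (start β v) with h | h
      · exact Or.inr h
      · refine Or.inl ⟨⟨?_, h.le⟩, hf.fderiv⟩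
        have h1 : HH β v ≤ 1 := by
          unfold HH
          rw [abs_of_nonneg b0.1, abs_of_nonneg b1.1]
          linarith [b0.2, b1.2]
        have h2 : area β (min (HH β v) 16) ≤ area β 1 :=
          area_mono hs ((min_le_left _ _).trans h1)
        have h3 := area_lip ha hs (le_refl (0 : ℝ)) (zero_le_one)
        rw [a0] at h3
        refine le_max_of_le_right ?_
        have h4 : area β (min (HH β v) 16) / Real.pi ≤ 2 := by
          rw [div_le_iff₀ hpi]
          linarith
        linarith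
    have hl : volume (lev (start β) (18 - 1 / 8)) ≤ ENNReal.ofReal (1 / 2) := by
      rw [start_lev ha h0 h16 hs (by norm_num) (by norm_num)]
      apply ENNReal.ofReal_le_ofReal
      have := Real.pi_lt_four
      linarith
    have hle : (1 : ℝ≥0∞) ≤ volume (crit (start β) (Icc 16 (18 - 1 / 8))) +
        ENNReal.ofReal (1 / 2) := by
      rw [← hK]
      exact (measure_mono hsub).trans ((measure_union_le _ _).trans (by gcongr))
    have h1 : (1 : ℝ≥0∞) = ENNReal.ofReal (1 / 2) + ENNReal.ofReal (1 / 2) := by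
      rw [← ENNReal.ofReal_add (by norm_num) (by norm_num)]
      norm_num
    rw [h1] at hle
    exact (ENNReal.add_le_add_iff_right ENNReal.ofReal_ne_top).1 hle

end Q49.PS
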